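import Pool.Agent.Q73.Sh.Exist

/-!
# A boundary point of the shadow which is far from the critical values
-/

set_option autoImplicit false

open Polynomial Topology

namespace Pool.Agent.Results.MP_5fa6f1_an.BoundaryOffCriticalValues

/-- The polynomial `Q_{n,m}`, the `m`-th derivative of `P ^ n`. -/
noncomputable def Q (P : ℂ[X]) (n m : ℕ) : ℂ[X] := derivative^[m] (P ^ n)

/-- The shadow of `P`: the closure of the set of all the zeros of the polynomials `Q_{n,m}`,
`n ≥ 1`, `0 ≤ m ≤ n d`, `d` the degree of `P`. -/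
def shadow (P : ℂ[X]) : Set ℂ :=
  closure {z | ∃ n m : ℕ, 1 ≤ n ∧ m ≤ n * P.natDegree ∧ (Q P n m).eval z = 0}

/-- The set `Z(P)` of the distinct zeros of `P`. -/
def zeroSet (P : ℂ[X]) : Set ℂ := {z | P.eval z = 0}

/-- The zeros of `P` are in convex position: `P` has at least three distinct zeros, and no zero
lies in the convex hull of the other zeros. -/
def ConvexPosition (P : ℂ[X]) : Prop :=
  3 ≤ (zeroSet P).ncard ∧ ∀ a ∈ zeroSet P, a ∉ convexHull ℝ (zeroSet P \ {a})

/-- The zeros of `P` are the vertices of a regular polygon: with `k` the number of the distinct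
zeros, they are the points `c + w exp (2 π i j / k)`. -/
def RegularPolygon (P : ℂ[X]) : Prop :=
  ∃ c w : ℂ, zeroSet P =
    {z | ∃ j : ℕ, z = c + w * Complex.exp (2 * Real.pi * Complex.I * j / (zeroSet P).ncard)}

/-- `F` is the rational map `F_α = z - α P / P'` of the Riemann sphere: it is continuous on the
sphere and it is given by the formula at every finite point which is not a zero of `P'`. -/
def IsNewtonMap (P : ℂ[X]) (α : ℝ) (F : OnePoint ℂ → OnePoint ℂ) : Prop :=
  Continuous F ∧ ∀ z : ℂ, (derivative P).eval z ≠ 0 →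
    F z = ((z - α * (P.eval z / (derivative P).eval z) : ℂ) : OnePoint ℂ)

/-- The finite number `v` is a critical value of `F_α`: there is a point of the Riemann sphere
with the image `v` at which `F_α` is not locally injective. -/
def IsCriticalValue (P : ℂ[X]) (α : ℝ) (v : ℂ) : Prop :=
  ∃ F, IsNewtonMap P α F ∧ ∃ z₀ : OnePoint ℂ, F z₀ = (v : OnePoint ℂ) ∧
    ¬ ∃ U ∈ 𝓝 z₀, Set.InjOn F U

/-- The set `C_P` of the finite critical values of all the maps `F_α`, `0 ≤ α ≤ d`. -/
def criticalValues (P : ℂ[X]) : Set ℂ :=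
  {v | ∃ α : ℝ, 0 ≤ α ∧ α ≤ P.natDegree ∧ IsCriticalValue P α v}

theorem zeroSet_eq : zeroSet Q73.Shadow.E =
    {(⟨-1 / 4, Q73.Shadow.s1⟩ : ℂ), ⟨-1 / 4, -Q73.Shadow.s1⟩, ⟨1 / 2, Q73.Shadow.s2⟩,
      ⟨1 / 2, -Q73.Shadow.s2⟩} := by
  ext z
  simp only [zeroSet, Set.mem_setOf_eq, Set.mem_insert_iff, Set.mem_singleton_iff]
  exact Q73.Shadow.E_zero_iff z

theorem mem_zeroSet_iff (z : ℂ) : z ∈ zeroSet Q73.Shadow.E ↔
    z = ⟨-1 / 4, Q73.Shadow.s1⟩ ∨ z = ⟨-1 / 4, -Q73.Shadow.s1⟩ ∨ z = ⟨1 / 2, Q73.Shadow.s2⟩ ∨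
      z = ⟨1 / 2, -Q73.Shadow.s2⟩ := Q73.Shadow.E_zero_iff z

theorem ncard_zeroSet : (zeroSet Q73.Shadow.E).ncard = 4 := by
  have h1 := Q73.Shadow.s1_pos
  have h2 := Q73.Shadow.s2_pos
  rw [zeroSet_eq, Set.ncard_insert_of_notMem, Set.ncard_insert_of_notMem, Set.ncard_pair]
  · intro h
    rw [Complex.ext_iff] at h
    simp only at h
    linarith [h.2]
  · simp only [Set.mem_insert_iff, Set.mem_singleton_iff, Complex.ext_iff, not_or, not_and]
    constructor <;> intro h <;> norm_num at h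
  · simp only [Set.mem_insert_iff, Set.mem_singleton_iff, Complex.ext_iff, not_or, not_and]
    refine ⟨fun _ => ?_, ?_, ?_⟩
    · intro h; linarith
    · intro h; norm_num at h
    · intro h; norm_num at h

theorem sep {S : Set ℂ} {a : ℂ} (α β : ℝ)
    (h : ∀ b ∈ S, α * b.re + β * b.im < α * a.re + β * a.im) : a ∉ convexHull ℝ S := by
  intro ha
  have hlin : IsLinearMap ℝ (fun z : ℂ => α * z.re + β * z.im) :=
    ⟨fun z w => by simp only [Complex.add_re, Complex.add_im]; ring,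
      fun c z => by simp only [Complex.real_smul, Complex.mul_re, Complex.mul_im,
        Complex.ofReal_re, Complex.ofReal_im, smul_eq_mul]; ring⟩
  have hc := convex_halfSpace_lt hlin (α * a.re + β * a.im)
  have h3 : a ∈ {w : ℂ | α * w.re + β * w.im < α * a.re + β * a.im} :=
    convexHull_min (fun b hb => h b hb) hc ha
  exact lt_irrefl (α * a.re + β * a.im) h3

/-- **Theorem (negative answer to Q1).**  The polynomial
`P = 4 z⁶ + 9 z⁴ - z³ + 9 z² + 4 = (2 z² + z + 2)² (z² - z + 1)` of degree `6` has four distinct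
zeros, which are in convex position and are not the vertices of a regular polygon.  All the maps
`F_α` exist, and there is a point of the boundary of the shadow of `P` which is not in the closure
of the set of the critical values of the maps `F_α`, `0 ≤ α ≤ 6`. -/
theorem result : ∃ P : ℂ[X],
    P = C 4 * X ^ 6 + C 9 * X ^ 4 - X ^ 3 + C 9 * X ^ 2 + C 4 ∧ P.natDegree = 6 ∧
    ConvexPosition P ∧ ¬ RegularPolygon P ∧ (∀ α : ℝ, ∃ F, IsNewtonMap P α F) ∧
    ∃ u ∈ frontier (shadow P), u ∉ closure (criticalValues P) := by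
  have h1 := Q73.Shadow.s1_pos
  have h2 := Q73.Shadow.s2_pos
  have q1 := Q73.Shadow.s1_sq
  have q2 := Q73.Shadow.s2_sq
  have h9 : Q73.Shadow.s1 < 1 := by nlinarith
  have h19 : 9 / 10 < Q73.Shadow.s1 := by nlinarith
  have h8 : Q73.Shadow.s2 < 9 / 10 := by nlinarith
  have h18 : 8 / 10 < Q73.Shadow.s2 := by nlinarith
  refine ⟨Q73.Shadow.E, rfl, Q73.Shadow.E_natDegree, ⟨?_, ?_⟩, ?_, ?_, ?_⟩
  · rw [ncard_zeroSet]
    norm_num
  · intro a ha
    rw [mem_zeroSet_iff] at ha
    rcases ha with rfl | rfl | rfl | rfl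
    · refine sep (-1) 2 ?_
      rintro b ⟨hb, hne⟩
      rw [mem_zeroSet_iff] at hb
      rcases hb with rfl | rfl | rfl | rfl
      · exact absurd rfl hne
      all_goals simp only; nlinarith
    · refine sep (-1) (-2) ?_
      rintro b ⟨hb, hne⟩
      rw [mem_zeroSet_iff] at hb
      rcases hb with rfl | rfl | rfl | rfl
      · simp only; nlinarith
      · exact absurd rfl hne
      all_goals simp only; nlinarith
    · refine sep 1 1 ?_
      rintro b ⟨hb, hne⟩
      rw [mem_zeroSet_iff] at hb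
      rcases hb with rfl | rfl | rfl | rfl
      · simp only; nlinarith
      · simp only; nlinarith
      · exact absurd rfl hne
      · simp only; nlinarith
    · refine sep 1 (-1) ?_
      rintro b ⟨hb, hne⟩
      rw [mem_zeroSet_iff] at hb
      rcases hb with rfl | rfl | rfl | rfl
      · simp only; nlinarith
      · simp only; nlinarith
      · simp only; nlinarith
      · exact absurd rfl hne
  · rintro ⟨c, w, h⟩
    rw [ncard_zeroSet] at h
    -- the set of the zeros is symmetric about `c`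
    have hsym : ∀ z ∈ zeroSet Q73.Shadow.E, 2 * c - z ∈ zeroSet Q73.Shadow.E := by
      intro z hz
      rw [h] at hz ⊢
      obtain ⟨k, hk⟩ := hz
      refine ⟨k + 2, ?_⟩
      rw [hk]
      have e : (2 * Real.pi * Complex.I * ((k + 2 : ℕ) : ℂ) / ((4 : ℕ) : ℂ)) =
          2 * Real.pi * Complex.I * (k : ℂ) / ((4 : ℕ) : ℂ) + Real.pi * Complex.I := by
        push_cast
        ring
      rw [e, Complex.exp_add, Complex.exp_pi_mul_I]
      ring
    have a1 := hsym ⟨-1 / 4, Q73.Shadow.s1⟩ ((mem_zeroSet_iff _).2 (Or.inl rfl))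
    have a2 := hsym ⟨-1 / 4, -Q73.Shadow.s1⟩ ((mem_zeroSet_iff _).2 (Or.inr (Or.inl rfl)))
    have a3 := hsym ⟨1 / 2, Q73.Shadow.s2⟩ ((mem_zeroSet_iff _).2 (Or.inr (Or.inr (Or.inl rfl))))
    rw [mem_zeroSet_iff] at a1 a2 a3
    simp only [Complex.ext_iff, Complex.sub_re, Complex.sub_im, Complex.mul_re, Complex.mul_im,
      Complex.re_ofNat, Complex.im_ofNat, zero_mul, sub_zero, add_zero] at a1 a2 a3
    rcases a1 with ⟨x1, y1⟩ | ⟨x1, y1⟩ | ⟨x1, y1⟩ | ⟨x1, y1⟩ <;>
    rcases a2 with ⟨x2, y2⟩ | ⟨x2, y2⟩ | ⟨x2, y2⟩ | ⟨x2, y2⟩ <;>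
    rcases a3 with ⟨x3, y3⟩ | ⟨x3, y3⟩ | ⟨x3, y3⟩ | ⟨x3, y3⟩ <;>
    linarith
  · intro α
    refine Q73.Shadow.exists_newton ?_ α
    intro h0
    have := derivative_eq_zero.1 h0
    rw [Q73.Shadow.E_natDegree] at this
    omega
  · obtain ⟨u, hu, r, hr, h⟩ := Q73.Shadow.bdry
    refine ⟨u, hu, fun hcl => ?_⟩
    obtain ⟨v, ⟨α, ha0, ha1, F, hF, z₀, hz₀, hz₁⟩, hv⟩ := Metric.mem_closure_iff.1 hcl r hr
    rw [Q73.Shadow.E_natDegree] at ha1
    refine hz₁ (h v ?_ α ha0 (by exact_mod_cast ha1) F hF z₀ hz₀)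
    rw [← dist_eq_norm, dist_comm]
    exact hv

end Pool.Agent.Results.MP_5fa6f1_an.BoundaryOffCriticalValues
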